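import Pool.Agent.Helper925_SC.Fin

/-!
# Sharp edge-isoperimetric stability for families whose size is a power of two (MP_48c8f3_co)

For every family `F` of subsets of `[n]` with `|F| = 2^k` the inequality of Q1 holds: some `G`
weakly isomorphic to the lexicographic initial segment `L` of size `2^k` (so `G` is a subcube of
dimension `k`) satisfies `|F Δ G| ≤ 2 (|∂F| - |∂L|)`.

Proof: let `W(F) = 2 (|F| log₂ |F| - 2 e(F))`. By induction on `n` one shows that for all `k ≤ n`
some subcube `C` of dimension `k` satisfies `|F Δ C| ≤ W(F) + 2^k ψ(|F| / 2^k)` with an explicit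
piecewise linear function `ψ`, `ψ(1) = 0`. In the induction step the two halves of `F` are treated
in one of two ways (a subcube inside the larger half, or a subcube `C' × {0,1}`), and the choice
depends on a two-variable inequality between `ψ` and the entropy, which by convexity reduces to
twelve numerical inequalities between integers.
-/

set_option autoImplicit false

namespace Pool.Agent.Results.MP_48c8f3_co.PowersOfTwo

/-- **Result.** The statement of Q1 (in the form of the frozen statement) for all families `F`
whose number of members is a power of two. -/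
theorem result :
    ∀ n k : ℕ, ∀ F L : Finset (Finset (Fin n)),
      F.card = 2 ^ k →
      L.card = F.card →
      (∀ x ∈ L, ∀ y ∉ L, ∃ i ∈ x, i ∉ y ∧ ∀ j < i, (j ∈ x ↔ j ∈ y)) →
      ∃ σ : Equiv.Perm (Fin n), ∃ S : Finset (Fin n),
        (((symmDiff F (L.image (fun x => symmDiff (x.map σ.toEmbedding) S))).card : ℤ) ≤
          2 * ((((F ×ˢ (Finset.univ : Finset (Fin n))).filter
                  (fun p => symmDiff p.1 {p.2} ∉ F)).card : ℤ) -
               (((L ×ˢ (Finset.univ : Finset (Fin n))).filter
                  (fun p => symmDiff p.1 {p.2} ∉ L)).card : ℤ))) :=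
  fun n k F L hF hc hL => Pool.Agent.Helper925_SC.final n F L k hF hc hL

end Pool.Agent.Results.MP_48c8f3_co.PowersOfTwo
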